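import Pool.Agent.H466.AB.Fin

set_option autoImplicit false

/-!
Albertson's conjecture for all sufficiently large `t`.
-/

open Pool.Agent.Helper770.Crossing

namespace Pool.Agent.Results.MP_b9e35b_co.LargeT

/-- There is `t₀` such that for all `t ≥ t₀`, every finite graph with chromatic number at least
`t` has crossing number at least that of `K_t`. -/
theorem result : ∃ t₀ : ℕ, ∀ t : ℕ, t₀ ≤ t → ∀ (V : Type) [Fintype V] (G : SimpleGraph V),
    (t : ℕ∞) ≤ G.chromaticNumber →
      crossingNumber (⊤ : SimpleGraph (Fin t)) ≤ crossingNumber G := by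
  obtain ⟨t₀, h⟩ := Pool.Agent.H466.AB.large
  refine ⟨t₀ + 1, fun t ht V _ G hχ => h t (by omega) V G ?_⟩
  intro hc
  have h1 := hc.colorable.chromaticNumber_le
  have h2 : ((t : ℕ) : ℕ∞) ≤ ((t - 1 : ℕ) : ℕ∞) := hχ.trans h1
  have h3 : t ≤ t - 1 := by exact_mod_cast h2
  omega

end Pool.Agent.Results.MP_b9e35b_co.LargeT
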